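import Pool.Agent.H174.GP.StP

open MeasureTheory ProbabilityTheory Finset

namespace Pool.Agent.H286.GP174

open Pool.Agent.H174.GP

private theorem S_sub (ω : ℕ → ℝ) (a l : ℕ) (h : a ≤ l) :
    S ω l - S ω a = ∑ j ∈ Finset.Ioc a l, ω j := by
  have e : ∀ n : ℕ, S ω n = ∑ j ∈ Finset.Ioc 0 n, ω j := fun n => rfl
  rw [e, e, ← Finset.sum_Ioc_consecutive (fun j => ω j) (Nat.zero_le a) h]
  ring

private theorem mgf_le (h1 : S_L2) (θ : ℝ) (hθ : θ ^ 2 ≤ 1 / 4) :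
    Integrable (fun x : ℝ => Real.exp (θ * x)) lap ∧
      (∫ x, Real.exp (θ * x) ∂lap) ≤ Real.exp (2 * θ ^ 2) := by
  have h : |θ| < 1 := by
    rw [← sq_lt_one_iff_abs_lt_one]
    linarith
  obtain ⟨h2, h3⟩ := h1 θ h
  refine ⟨h2, ?_⟩
  rw [h3]
  have h4 : 1 + 2 * θ ^ 2 ≤ Real.exp (2 * θ ^ 2) := by
    have := Real.add_one_le_exp (2 * θ ^ 2)
    linarith
  refine le_trans ?_ h4
  rw [div_le_iff₀ (by linarith)]
  nlinarith [sq_nonneg θ]

/-- Tail of the partial sums. -/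
theorem gp_stail (h1 : S_L2) (h2 : S_levy) (h3 : S_chern) : Pool.Agent.H174.GP.S_Stail := by
  intro a N t hN ht
  have hN' : (1 : ℝ) ≤ N := by exact_mod_cast hN
  have hsN : 0 < Real.sqrt N := Real.sqrt_pos.mpr (by linarith)
  have hsq : Real.sqrt N ^ 2 = N := Real.sq_sqrt (by linarith)
  set θ : ℝ := 1 / (2 * Real.sqrt N) with hθ
  have hθ0 : 0 ≤ θ := by positivity
  have hθ2 : θ ^ 2 = 1 / (4 * N) := by
    rw [hθ, div_pow, mul_pow, hsq]
    norm_num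
  have hθ3 : θ ^ 2 ≤ 1 / 4 := by
    rw [hθ2]
    exact one_div_le_one_div_of_le (by norm_num) (by linarith)
  have hlevy := h2 a (a + N) (fun _ x => x) t (Nat.le_add_right a N)
    (fun _ _ => measurable_id) (fun _ _ _ => rfl)
  have hm := mgf_le h1 θ hθ3
  have hm' := mgf_le h1 (-θ) (by rw [neg_sq]; exact hθ3)
  rw [neg_sq] at hm'
  have hneg : (fun x : ℝ => Real.exp (-(θ * x))) = fun x : ℝ => Real.exp (-θ * x) := by
    funext x
    rw [neg_mul]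
  have hchern := h3 (Finset.Ioc a (a + N)) (fun _ x => x) (fun _ => 2 * θ ^ 2) θ t hθ0
    (fun _ _ => measurable_id) (fun _ _ => ⟨hm.1, by rw [hneg]; exact hm'.1⟩)
    (fun _ _ => ⟨hm.2, by rw [hneg]; exact hm'.2⟩)
  have hset : {ω : ℕ → ℝ | ∃ l ∈ Finset.Icc a (a + N), t ≤ |S ω l - S ω a|} =
      {ω : ℕ → ℝ | ∃ l ∈ Finset.Icc a (a + N), t ≤ |∑ j ∈ Finset.Ioc a l, ω j|} := by
    ext ω
    simp only [Set.mem_ofPred_eq]
    constructor
    · rintro ⟨l, hl, h⟩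
      refine ⟨l, hl, ?_⟩
      rwa [← S_sub ω a l (Finset.mem_Icc.mp hl).1]
    · rintro ⟨l, hl, h⟩
      refine ⟨l, hl, ?_⟩
      rwa [S_sub ω a l (Finset.mem_Icc.mp hl).1]
  rw [hset]
  refine hlevy.trans ?_
  have hsum : ∑ _j ∈ Finset.Ioc a (a + N), 2 * θ ^ 2 = 1 / 2 := by
    rw [Finset.sum_const, Nat.card_Ioc, nsmul_eq_mul, hθ2]
    have : ((a + N - a : ℕ) : ℝ) = N := by
      rw [Nat.add_sub_cancel_left]
    rw [this]
    field_simp
    norm_num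
  rw [hsum] at hchern
  have hθt : θ * t = t / (2 * Real.sqrt N) := by
    rw [hθ]
    ring
  rw [hθt, Real.exp_add] at hchern
  linarith

end Pool.Agent.H286.GP174
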