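import Pool.Agent.H174.GP.StA

/-!
Project GP of helper174: generating function bound for the number of partitions with a given Durfee
size.
-/

set_option autoImplicit false

namespace Pool.Agent.H286.GP174

open Finset Pool.Agent.H174.GP

theorem prod_fin (f : ℕ → ℝ) (d : ℕ) : ∏ j ∈ Finset.Icc 1 d, f j = ∏ i : Fin d, f ((i : ℕ) + 1) := by
  induction d with
  | zero => simp
  | succ d ih =>
    rw [Finset.prod_Icc_succ_top (by omega), ih, Fin.prod_univ_castSucc]
    rfl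

theorem geom_le {q : ℝ} (h0 : 0 ≤ q) (h1 : q < 1) (n : ℕ) :
    ∑ k ∈ Finset.range n, q ^ k ≤ 1 / (1 - q) := by
  rw [le_div_iff₀ (by linarith), geom_sum_mul_neg]
  linarith [pow_nonneg h0 n]

theorem gp_cntle : S_cntle := by
  intro d m t ht
  classical
  set q : Fin d → ℝ := fun i => Real.exp (-(t * (((i : ℕ) + 1 : ℕ) : ℝ))) with hq
  have hq0 : ∀ i, 0 ≤ q i := fun i => (Real.exp_pos _).le
  have hq1 : ∀ i, q i < 1 := by
    intro i
    rw [hq]
    simp only
    rw [Real.exp_lt_one_iff]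
    have : (0 : ℝ) < (((i : ℕ) + 1 : ℕ) : ℝ) := by positivity
    have := mul_pos ht this
    linarith
  set P : Finset (Fin d → ℕ) := Fintype.piFinset fun _ => Finset.range (m + 1) with hP
  set B : Finset ((Fin d → ℕ) × (Fin d → ℕ)) := (P ×ˢ P).filter fun gh =>
    d ^ 2 + ∑ i : Fin d, ((i : ℕ) + 1) * (gh.1 i + gh.2 i) = m with hB
  have hcnt : cnt d m = B.card := by
    unfold cnt
    rw [← Set.ncard_coe_finset]
    congr 1
    ext gh
    rw [hB, Finset.coe_filter, Set.mem_setOf_eq, Set.mem_setOf_eq, Finset.mem_product, hP,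
      Fintype.mem_piFinset, Fintype.mem_piFinset]
    constructor
    · intro h
      have hle : ∀ i : Fin d, ((i : ℕ) + 1) * (gh.1 i + gh.2 i) ≤ m := by
        intro i
        have h1 : ((i : ℕ) + 1) * (gh.1 i + gh.2 i) ≤
            ∑ i : Fin d, ((i : ℕ) + 1) * (gh.1 i + gh.2 i) :=
          Finset.single_le_sum (f := fun i : Fin d => ((i : ℕ) + 1) * (gh.1 i + gh.2 i))
            (fun _ _ => Nat.zero_le _) (Finset.mem_univ i)
        omega
      refine ⟨⟨fun i => ?_, fun i => ?_⟩, h⟩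
      · rw [Finset.mem_range]
        have := hle i
        nlinarith [Nat.zero_le (i : ℕ), Nat.zero_le (gh.1 i), Nat.zero_le (gh.2 i)]
      · rw [Finset.mem_range]
        have := hle i
        nlinarith [Nat.zero_le (i : ℕ), Nat.zero_le (gh.1 i), Nat.zero_le (gh.2 i)]
    · exact fun h => h.2
  -- the weight of one element
  have hw : ∀ gh ∈ B, Real.exp (-(t * ((m : ℝ) - (d : ℝ) ^ 2))) =
      (∏ i, q i ^ gh.1 i) * ∏ i, q i ^ gh.2 i := by
    intro gh hgh
    have h1 := (Finset.mem_filter.1 hgh).2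
    have h2 : ((m : ℝ) - (d : ℝ) ^ 2) =
        ∑ i : Fin d, (((i : ℕ) + 1 : ℕ) : ℝ) * ((gh.1 i : ℝ) + (gh.2 i : ℝ)) := by
      have h3 : ((d ^ 2 + ∑ i : Fin d, ((i : ℕ) + 1) * (gh.1 i + gh.2 i) : ℕ) : ℝ) = (m : ℝ) := by
        exact_mod_cast h1
      rw [← h3]
      push_cast
      ring
    rw [← Finset.prod_mul_distrib]
    have h4 : ∀ i : Fin d, q i ^ gh.1 i * q i ^ gh.2 i =
        Real.exp (-(t * ((((i : ℕ) + 1 : ℕ) : ℝ) * ((gh.1 i : ℝ) + (gh.2 i : ℝ))))) := by
      intro i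
      rw [← pow_add, hq]
      simp only
      rw [← Real.exp_nat_mul]
      congr 1
      push_cast
      ring
    rw [Finset.prod_congr rfl fun i _ => h4 i, ← Real.exp_sum, h2, Finset.mul_sum,
      Finset.sum_neg_distrib]
  have hmain : (B.card : ℝ) * Real.exp (-(t * ((m : ℝ) - (d : ℝ) ^ 2))) ≤
      (∏ i, (1 / (1 - q i))) * ∏ i, (1 / (1 - q i)) := by
    calc (B.card : ℝ) * Real.exp (-(t * ((m : ℝ) - (d : ℝ) ^ 2)))
        = ∑ gh ∈ B, (∏ i, q i ^ gh.1 i) * ∏ i, q i ^ gh.2 i := by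
          rw [← Finset.sum_congr rfl hw, Finset.sum_const, nsmul_eq_mul]
      _ ≤ ∑ gh ∈ P ×ˢ P, (∏ i, q i ^ gh.1 i) * ∏ i, q i ^ gh.2 i := by
          apply Finset.sum_le_sum_of_subset_of_nonneg (Finset.filter_subset _ _)
          intro gh _ _
          exact mul_nonneg (Finset.prod_nonneg fun i _ => pow_nonneg (hq0 i) _)
            (Finset.prod_nonneg fun i _ => pow_nonneg (hq0 i) _)
      _ = (∑ g ∈ P, ∏ i, q i ^ g i) * ∑ h ∈ P, ∏ i, q i ^ h i := by
          rw [Finset.sum_mul_sum, Finset.sum_product]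
      _ = (∏ i, ∑ k ∈ Finset.range (m + 1), q i ^ k) *
            ∏ i, ∑ k ∈ Finset.range (m + 1), q i ^ k := by
          rw [Finset.prod_univ_sum]
      _ ≤ (∏ i, (1 / (1 - q i))) * ∏ i, (1 / (1 - q i)) := by
          have h1 : ∏ i, ∑ k ∈ Finset.range (m + 1), q i ^ k ≤ ∏ i, (1 / (1 - q i)) :=
            Finset.prod_le_prod (fun i _ => Finset.sum_nonneg fun k _ => pow_nonneg (hq0 i) k)
              fun i _ => geom_le (hq0 i) (hq1 i) (m + 1)
          have h0 : 0 ≤ ∏ i, ∑ k ∈ Finset.range (m + 1), q i ^ k :=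
            Finset.prod_nonneg fun i _ => Finset.sum_nonneg fun k _ => pow_nonneg (hq0 i) k
          exact mul_le_mul h1 h1 h0 (h0.trans h1)
  have hprod : ∏ j ∈ Finset.Icc 1 d, (1 / (1 - Real.exp (-(t * j)))) ^ 2 =
      (∏ i, (1 / (1 - q i))) * ∏ i, (1 / (1 - q i)) := by
    rw [prod_fin (fun j => (1 / (1 - Real.exp (-(t * j)))) ^ 2), ← Finset.prod_mul_distrib]
    refine Finset.prod_congr rfl fun i _ => ?_
    rw [pow_two]
  rw [hcnt, hprod]
  calc (B.card : ℝ) = Real.exp (t * ((m : ℝ) - (d : ℝ) ^ 2)) *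
        ((B.card : ℝ) * Real.exp (-(t * ((m : ℝ) - (d : ℝ) ^ 2)))) := by
        rw [mul_comm (B.card : ℝ), ← mul_assoc, ← Real.exp_add, add_neg_cancel, Real.exp_zero,
          one_mul]
    _ ≤ _ := mul_le_mul_of_nonneg_left hmain (Real.exp_pos _).le

end Pool.Agent.H286.GP174
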